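import Mathlib

-- merged part: Pool.Agent.Work.MP_6004b5_an.Basic
section
open Complex Metric Set MeasureTheory ComplexConjugate

namespace Pool.Agent.Work.MP_6004b5_an

/-- The real-linear map v ↦ α v + conj (β v). -/
noncomputable def lin (α β : ℂ) : ℂ →L[ℝ] ℂ :=
  (ContinuousLinearMap.mul ℝ ℂ α) + (conjCLE : ℂ →L[ℝ] ℂ).comp (ContinuousLinearMap.mul ℝ ℂ β)

lemma lin_apply (α β v : ℂ) : lin α β v = α * v + conj (β * v) := by
  simp [lin]

lemma det_lin (α β : ℂ) : (lin α β).det = ‖α‖ ^ 2 - ‖β‖ ^ 2 := by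
  rw [ContinuousLinearMap.det, ← LinearMap.det_toMatrix basisOneI, Matrix.det_fin_two]
  simp [LinearMap.toMatrix_apply, lin_apply, Complex.sq_norm, Complex.normSq_apply]
  ring

lemma hasFDerivAt_lin {h g : ℂ → ℂ} {α β z : ℂ} (hh : HasDerivAt h α z) (hg : HasDerivAt g β z) :
    HasFDerivAt (fun z => h z + conj (g z)) (lin α β) z := by
  have h1 : HasFDerivAt h (ContinuousLinearMap.mul ℝ ℂ α) z := by
    refine (hh.hasFDerivAt.restrictScalars ℝ).congr_fderiv ?_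
    ext v
    simp [mul_comm]
  have h2 : HasFDerivAt g (ContinuousLinearMap.mul ℝ ℂ β) z := by
    refine (hg.hasFDerivAt.restrictScalars ℝ).congr_fderiv ?_
    ext v
    simp [mul_comm]
  have h3 := (conjCLE : ℂ →L[ℝ] ℂ).hasFDerivAt.comp z h2
  exact h1.add h3

noncomputable def hh (z : ℂ) : ℂ := 99 / 100 * z + z ^ 3 / 10
noncomputable def gg (z : ℂ) : ℂ := -(99 / 100) * (z / (10 + z ^ 2))
noncomputable def ff (z : ℂ) : ℂ := hh z + conj (gg z)

lemma den_norm {z : ℂ} (hz : ‖z‖ ≤ 1) : 9 ≤ ‖10 + z ^ 2‖ := by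
  have h1 : ‖(10 : ℂ)‖ - ‖-(z ^ 2)‖ ≤ ‖10 - -(z ^ 2)‖ := norm_sub_norm_le _ _
  have h2 : ‖z ^ 2‖ ≤ 1 := by rw [norm_pow]; exact pow_le_one₀ (norm_nonneg _) hz
  rw [norm_neg, sub_neg_eq_add] at h1
  have h3 : ‖(10 : ℂ)‖ = 10 := by simp
  linarith

lemma den_ne {z : ℂ} (hz : ‖z‖ ≤ 1) : (10 + z ^ 2) ≠ 0 := by
  intro h
  have := den_norm hz
  rw [h, norm_zero] at this
  linarith

lemma hasDerivAt_hh (z : ℂ) : HasDerivAt hh (99 / 100 + 3 * z ^ 2 / 10) z := by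
  have := ((hasDerivAt_id z).const_mul (99 / 100 : ℂ)).add (((hasDerivAt_id z).pow 3).div_const 10)
  refine HasDerivAt.congr_deriv (f := hh) this ?_
  simp

lemma hasDerivAt_gg {z : ℂ} (hz : ‖z‖ ≤ 1) :
    HasDerivAt gg (-(99 / 100) * ((10 - z ^ 2) / (10 + z ^ 2) ^ 2)) z := by
  have h1 : HasDerivAt (fun z : ℂ => 10 + z ^ 2) (2 * z) z := by
    simpa using ((hasDerivAt_id z).pow 2).const_add 10
  have := ((hasDerivAt_id z).div h1 (den_ne hz)).const_mul (-(99 / 100) : ℂ)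
  refine HasDerivAt.congr_deriv (f := gg) this ?_
  simp only [id]
  congr 2
  ring

lemma norm_dgg {z : ℂ} (hz : ‖z‖ ≤ 1) :
    ‖(-(99 / 100) * ((10 - z ^ 2) / (10 + z ^ 2) ^ 2) : ℂ)‖ ≤ 11 / 81 := by
  have h2 : ‖z ^ 2‖ ≤ 1 := by rw [norm_pow]; exact pow_le_one₀ (norm_nonneg _) hz
  have h3 : ‖(10 : ℂ) - z ^ 2‖ ≤ 11 := by
    have := norm_sub_le (10 : ℂ) (z ^ 2)
    have h3 : ‖(10 : ℂ)‖ = 10 := by simp
    linarith
  have h4 := den_norm hz
  have h5 : 81 ≤ ‖10 + z ^ 2‖ ^ 2 := by linarith only [h4, mul_nonneg_of_nonpos_of_nonpos (Mathlib.Tactic.Linarith.sub_nonpos_of_le h4) (Mathlib.Tactic.Linarith.sub_nonpos_of_le h4)]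
  rw [norm_mul, norm_div, norm_pow, norm_neg]
  have h6 : ‖(99 / 100 : ℂ)‖ = 99 / 100 := by simp
  rw [h6]
  have h7 : ‖(10 : ℂ) - z ^ 2‖ / ‖10 + z ^ 2‖ ^ 2 ≤ 11 / 81 :=
    div_le_div₀ (by norm_num) h3 (by norm_num) h5
  have h8 : 0 ≤ ‖(10 : ℂ) - z ^ 2‖ / ‖10 + z ^ 2‖ ^ 2 := by positivity
  linarith only [h7]

lemma norm_dhh (z : ℂ) : 99 / 100 + 3 * (z ^ 2).re / 10 ≤ ‖(99 / 100 + 3 * z ^ 2 / 10 : ℂ)‖ := by
  have := Complex.re_le_norm (99 / 100 + 3 * z ^ 2 / 10 : ℂ)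
  have h2 : (99 / 100 + 3 * z ^ 2 / 10 : ℂ).re = 99 / 100 + 3 * (z ^ 2).re / 10 := by
    simp
  linarith only [this, h2]

lemma approx : ApproximatesLinearOn ff
    ((ContinuousLinearEquiv.refl ℝ ℂ : ℂ ≃L[ℝ] ℂ) : ℂ →L[ℝ] ℂ) (closedBall 0 1) (1 / 2) := by
  intro z hz w hw
  rw [mem_closedBall_zero_iff] at hz hw
  have e1 : gg z - gg w = -(99 / 100) * ((z - w) * (10 - z * w) / ((10 + z ^ 2) * (10 + w ^ 2))) := by
    have := den_ne hz
    have := den_ne hw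
    unfold gg
    field_simp
    ring
  have e2 : ff z - ff w - (z - w) =
      (z - w) * (-(1 / 100) + (z ^ 2 + z * w + w ^ 2) / 10) + conj (gg z - gg w) := by
    unfold ff hh
    rw [map_sub]
    ring
  have hzw : ‖z * w‖ ≤ 1 := by rw [norm_mul]; exact mul_le_one₀ hz (norm_nonneg _) hw
  have hz2 : ‖z ^ 2‖ ≤ 1 := by rw [norm_pow]; exact pow_le_one₀ (norm_nonneg _) hz
  have hw2 : ‖w ^ 2‖ ≤ 1 := by rw [norm_pow]; exact pow_le_one₀ (norm_nonneg _) hw
  have b1 : ‖(-(1 / 100) + (z ^ 2 + z * w + w ^ 2) / 10 : ℂ)‖ ≤ 31 / 100 := by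
    have a1 := norm_add_le (-(1 / 100) : ℂ) ((z ^ 2 + z * w + w ^ 2) / 10)
    have a2 : ‖(-(1 / 100) : ℂ)‖ = 1 / 100 := by simp
    have a3 : ‖((z ^ 2 + z * w + w ^ 2) / 10 : ℂ)‖ = ‖z ^ 2 + z * w + w ^ 2‖ / 10 := by simp
    have a4 := norm_add₃_le (a := z ^ 2) (b := z * w) (c := w ^ 2)
    linarith only [hzw, hz2, hw2, a1, a2, a3, a4]
  have b2 : ‖gg z - gg w‖ ≤ 11 / 81 * ‖z - w‖ := by
    rw [e1, norm_mul, norm_div, norm_mul, norm_mul, norm_neg]
    have h6 : ‖(99 / 100 : ℂ)‖ = 99 / 100 := by simp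
    rw [h6]
    have h3 : ‖(10 : ℂ) - z * w‖ ≤ 11 := by
      have := norm_sub_le (10 : ℂ) (z * w)
      have h3 : ‖(10 : ℂ)‖ = 10 := by simp
      linarith only [hzw, this, h3]
    have h5 : 81 ≤ ‖10 + z ^ 2‖ * ‖10 + w ^ 2‖ := by
      have := den_norm hz
      have := den_norm hw
      nlinarith
    have h7 : ‖(10 : ℂ) - z * w‖ / (‖10 + z ^ 2‖ * ‖10 + w ^ 2‖) ≤ 11 / 81 :=
      div_le_div₀ (by norm_num) h3 (by norm_num) h5
    have h8 : 0 ≤ ‖(10 : ℂ) - z * w‖ / (‖10 + z ^ 2‖ * ‖10 + w ^ 2‖) := by positivity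
    rw [mul_div_assoc]
    have := norm_nonneg (z - w)
    linarith only [this, h7, mul_nonneg_of_nonpos_of_nonpos (Mathlib.Tactic.Linarith.sub_nonpos_of_le h7) (Mathlib.Tactic.Linarith.sub_nonpos_of_le this)]
  change ‖ff z - ff w - (z - w)‖ ≤ _
  rw [e2]
  refine (norm_add_le _ _).trans ?_
  rw [norm_mul, Complex.norm_conj]
  have := norm_nonneg (z - w)
  push_cast
  linarith only [b2, this, b1, mul_nonneg_of_nonpos_of_nonpos (Mathlib.Tactic.Linarith.sub_nonpos_of_le b1) (Mathlib.Tactic.Linarith.sub_nonpos_of_le this)]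

lemma ff_injOn : InjOn ff (closedBall 0 1) := by
  refine approx.injOn (Or.inr ?_)
  have : ‖((ContinuousLinearEquiv.refl ℝ ℂ).symm : ℂ →L[ℝ] ℂ)‖₊ = 1 := by
    simp
  rw [this]
  norm_num

lemma ff_open : IsOpen (ff '' ball 0 1) := by
  refine (approx.mono_set ball_subset_closedBall).open_image
    (ContinuousLinearEquiv.refl ℝ ℂ).toNonlinearRightInverse isOpen_ball (Or.inr ?_)
  have : (ContinuousLinearEquiv.refl ℝ ℂ).toNonlinearRightInverse.nnnorm = 1 := by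
    change ‖((ContinuousLinearEquiv.refl ℝ ℂ).symm : ℂ →L[ℝ] ℂ)‖₊ = 1
    simp
  rw [this]
  norm_num

lemma ff_sphere {z : ℂ} (hz : ‖z‖ = 1) : ‖ff z‖ = 1 := by
  have h1 : z * conj z = 1 := by
    rw [Complex.mul_conj, Complex.normSq_eq_norm_sq, hz]; simp
  have h2 : (10 + conj z ^ 2) ≠ 0 := den_ne (by simp [hz])
  have h3 : ff z = z * (10 + z ^ 2) / (10 + conj z ^ 2) := by
    unfold ff hh gg
    simp only [map_mul, map_neg, map_div₀, map_add, map_pow, map_ofNat]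
    field_simp
    linear_combination (990 * conj z + 100 * z * (z * conj z + 1)) * h1
  have h4 : ‖(10 + conj z ^ 2 : ℂ)‖ = ‖10 + z ^ 2‖ := by
    rw [← Complex.norm_conj]; simp [map_ofNat]
  have h5 : ‖10 + z ^ 2‖ ≠ 0 := norm_ne_zero_iff.2 (den_ne hz.le)
  rw [h3, norm_div, norm_mul, h4, hz]
  field_simp

lemma ff_compact : IsCompact (ff '' closedBall 0 1) :=
  (isCompact_closedBall 0 1).image_of_continuousOn approx.continuousOn

lemma ff_mapsTo : MapsTo ff (ball 0 1) (ball 0 1) := by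
  intro z hz
  by_contra hcon
  rw [mem_ball_zero_iff, not_lt] at hcon
  obtain ⟨w0, ⟨z0, hz0, rfl⟩, hmax⟩ := ff_compact.exists_isMaxOn
    ⟨ff 0, mem_image_of_mem _ (by simp)⟩ continuous_norm.continuousOn
  have key : ∃ w ∈ ff '' ball 0 1, 1 ≤ ‖w‖ ∧ ∀ w' ∈ ff '' closedBall 0 1, ‖w'‖ ≤ ‖w‖ := by
    have hle : ‖ff z‖ ≤ ‖ff z0‖ := hmax (mem_image_of_mem _ (ball_subset_closedBall hz))
    rcases (mem_closedBall_zero_iff.1 hz0).lt_or_eq with h | h
    · exact ⟨ff z0, mem_image_of_mem _ (mem_ball_zero_iff.2 h), hcon.trans hle, fun w' hw' => hmax hw'⟩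
    · refine ⟨ff z, mem_image_of_mem _ hz, hcon, fun w' hw' => ?_⟩
      have : ‖w'‖ ≤ ‖ff z0‖ := hmax hw'
      rw [ff_sphere h] at this
      exact this.trans hcon
  obtain ⟨w, hw, hw1, hwmax⟩ := key
  obtain ⟨ε, hε, hball⟩ := Metric.isOpen_iff.1 ff_open w hw
  have hwpos : 0 < ‖w‖ := by linarith
  have hmem : ((1 + ε / (2 * ‖w‖) : ℝ) : ℂ) * w ∈ ball w ε := by
    rw [mem_ball, dist_eq_norm]
    have : ((1 + ε / (2 * ‖w‖) : ℝ) : ℂ) * w - w = ((ε / (2 * ‖w‖) : ℝ) : ℂ) * w := by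
      push_cast; ring
    rw [this, norm_mul, Complex.norm_real, Real.norm_of_nonneg (by positivity)]
    field_simp
    linarith
  have := hwmax _ (image_mono ball_subset_closedBall (hball hmem))
  rw [norm_mul, Complex.norm_real, Real.norm_of_nonneg (by positivity)] at this
  have h2 : 0 < ε / (2 * ‖w‖) * ‖w‖ := by positivity
  linarith only [this, h2]

lemma ff_surjOn : SurjOn ff (ball 0 1) (ball 0 1) := by
  refine (convex_ball (0 : ℂ) 1).isPreconnected.subset_of_closure_inter_subset ff_open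
    ⟨ff 0, ff_mapsTo (by simp), mem_image_of_mem _ (by simp)⟩ ?_
  rintro w ⟨hw1, hw2⟩
  have : w ∈ ff '' closedBall 0 1 :=
    closure_minimal (image_mono ball_subset_closedBall) ff_compact.isClosed hw1
  obtain ⟨z, hz, rfl⟩ := this
  rcases (mem_closedBall_zero_iff.1 hz).lt_or_eq with h | h
  · exact mem_image_of_mem _ (mem_ball_zero_iff.2 h)
  · rw [mem_ball_zero_iff, ff_sphere h] at hw2
    exact absurd hw2 (lt_irrefl _)

lemma ff_bijOn : BijOn ff (ball 0 1) (ball 0 1) :=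
  ⟨ff_mapsTo, ff_injOn.mono ball_subset_closedBall, ff_surjOn⟩

end Pool.Agent.Work.MP_6004b5_an
end

-- merged part: Pool.Agent.Work.MP_6004b5_an.Area
section
open Complex Metric Set MeasureTheory ComplexConjugate

namespace Pool.Agent.Work.MP_6004b5_an

/-- The test set. -/
def EE : Set ℂ := {z | ‖z‖ ^ 2 ≤ 1 / 5 ∧ 1 / 10 ≤ (z ^ 2).re}

lemma EE_norm {z : ℂ} (hz : z ∈ EE) : ‖z‖ ≤ 1 / 2 := by
  have h1 := hz.1
  have h2 := norm_nonneg z
  (refine le_of_not_gt fun h_nl => ?_; linarith only [h_nl, h1, h2, mul_nonneg_of_nonpos_of_nonpos (Mathlib.Tactic.Linarith.sub_nonpos_of_le h2) (le_of_lt (Mathlib.Tactic.Linarith.sub_neg_of_lt h_nl))])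

lemma EE_closed : IsClosed EE := by
  have h1 : IsClosed {z : ℂ | ‖z‖ ^ 2 ≤ 1 / 5} := isClosed_le (by fun_prop) continuous_const
  have h2 : IsClosed {z : ℂ | 1 / 10 ≤ (z ^ 2).re} := isClosed_le continuous_const (by fun_prop)
  exact h1.inter h2

lemma EE_compact : IsCompact EE :=
  (isCompact_closedBall (0 : ℂ) (1 / 2)).of_isClosed_subset EE_closed
    (fun _ hz => mem_closedBall_zero_iff.2 (EE_norm hz))

lemma EE_sub : EE ⊆ ball 0 1 := fun _ hz => mem_ball_zero_iff.2 (by linarith only [hz, EE_norm hz])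

lemma EE_meas : MeasurableSet EE := EE_closed.measurableSet

lemma EE_neg {z : ℂ} : -z ∈ EE ↔ z ∈ EE := by simp [EE]

lemma EE_pos : 0 < volume EE := by
  have ho : IsOpen {z : ℂ | ‖z‖ ^ 2 < 1 / 5 ∧ 1 / 10 < (z ^ 2).re} := by
    have h1 : IsOpen {z : ℂ | ‖z‖ ^ 2 < 1 / 5} := isOpen_lt (by fun_prop) continuous_const
    have h2 : IsOpen {z : ℂ | 1 / 10 < (z ^ 2).re} := isOpen_lt continuous_const (by fun_prop)
    exact h1.inter h2
  have hne : ({z : ℂ | ‖z‖ ^ 2 < 1 / 5 ∧ 1 / 10 < (z ^ 2).re}).Nonempty := by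
    refine ⟨((2 / 5 : ℝ) : ℂ), ?_, ?_⟩
    · rw [Complex.norm_real]; norm_num
    · rw [← Complex.ofReal_pow, Complex.ofReal_re]; norm_num
  exact (ho.measure_pos volume hne).trans_le (measure_mono fun z hz => ⟨hz.1.le, hz.2.le⟩)

lemma EE_lt_top : volume EE < ⊤ := EE_compact.measure_lt_top

lemma area_ff : volume EE < volume (ff '' EE) := by
  have hd : ∀ z ∈ EE, HasFDerivWithinAt ff (lin (99 / 100 + 3 * z ^ 2 / 10)
      (-(99 / 100) * ((10 - z ^ 2) / (10 + z ^ 2) ^ 2))) EE z := fun z hz =>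
    (hasFDerivAt_lin (hasDerivAt_hh z)
      (hasDerivAt_gg (by linarith only [hz, EE_norm hz]))).hasFDerivWithinAt
  rw [← lintegral_abs_det_fderiv_eq_addHaar_image volume EE_meas hd
    (ff_injOn.mono (EE_sub.trans ball_subset_closedBall))]
  have h1 : ∫⁻ _ in EE, ENNReal.ofReal (102 / 100) ≤ ∫⁻ z in EE, ENNReal.ofReal
      |(lin (99 / 100 + 3 * z ^ 2 / 10) (-(99 / 100) * ((10 - z ^ 2) / (10 + z ^ 2) ^ 2))).det| := by
    refine setLIntegral_mono' EE_meas fun z hz => ENNReal.ofReal_le_ofReal ?_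
    refine le_trans ?_ (le_abs_self _)
    rw [det_lin]
    have a1 := norm_dhh z
    have a2 := norm_dgg (z := z) (by linarith only [hz, EE_norm hz])
    have a3 := hz.2
    have a4 := norm_nonneg (-(99 / 100) * ((10 - z ^ 2) / (10 + z ^ 2) ^ 2) : ℂ)
    have a5 : 102 / 100 ≤ ‖(99 / 100 + 3 * z ^ 2 / 10 : ℂ)‖ := by linarith only [a1, a3]
    linarith only [a1, a2, a3, a4, mul_nonneg_of_nonpos_of_nonpos (Mathlib.Tactic.Linarith.sub_nonpos_of_le a1) (Mathlib.Tactic.Linarith.sub_nonpos_of_le a1), mul_nonneg_of_nonpos_of_nonpos (Mathlib.Tactic.Linarith.sub_nonpos_of_le a1) (Mathlib.Tactic.Linarith.sub_nonpos_of_le a3), mul_nonneg_of_nonpos_of_nonpos (Mathlib.Tactic.Linarith.sub_nonpos_of_le a2) (Mathlib.Tactic.Linarith.sub_nonpos_of_le a4), mul_nonneg_of_nonpos_of_nonpos (Mathlib.Tactic.Linarith.sub_nonpos_of_le a3) (Mathlib.Tactic.Linarith.sub_nonpos_of_le a3)]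
  refine lt_of_lt_of_le ?_ h1
  rw [setLIntegral_const]
  have h2 : (1 : ENNReal) < ENNReal.ofReal (102 / 100) := by
    rw [← ENNReal.ofReal_one]
    exact (ENNReal.ofReal_lt_ofReal_iff (by norm_num)).2 (by norm_num)
  calc volume EE = 1 * volume EE := (one_mul _).symm
    _ < _ := ENNReal.mul_lt_mul_left EE_pos.ne' EE_lt_top.ne h2

lemma key_ineq (t s x : ℝ) (ht : t < 1) (hs0 : 0 ≤ s) (hs : 5 * s ≤ t) (hx : x ^ 2 ≤ 4 * s) :
    (1 - t) ^ 2 / (1 + s - x) ^ 2 + (1 - t) ^ 2 / (1 + s + x) ^ 2 ≤ 2 := by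
  have hs1 : s < 1 / 5 := by linarith only [ht, hs]
  have hP : 0 < 1 + s - x := by linarith only [ht, hs, hx, sq_nonneg (x - 1), sq_nonneg (x - (1 : ℝ))]
  have hQ : 0 < 1 + s + x := by linarith only [ht, hs, hx, sq_nonneg (x + 1), sq_nonneg (x + (1 : ℝ))]
  have h1 : (1 - s) ^ 2 ≤ (1 + s - x) * (1 + s + x) := by linarith only [hx]
  have h2 : ((1 - s) ^ 2) ^ 2 ≤ ((1 + s - x) * (1 + s + x)) ^ 2 :=
    pow_le_pow_left₀ (by positivity) h1 2
  have h3 : (1 - t) ^ 2 ≤ (1 - 5 * s) ^ 2 := pow_le_pow_left₀ (by linarith) (by linarith) 2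
  have h4 : (1 + s - x) ^ 2 + (1 + s + x) ^ 2 ≤ 2 * (1 + 6 * s + s ^ 2) := by linarith only [hx]
  have h5 : (1 - 5 * s) ^ 2 * (1 + 6 * s + s ^ 2) ≤ ((1 - s) ^ 2) ^ 2 := by
    have : 0 ≤ s ^ 2 * (5 - 18 * s - 3 * s ^ 2) := mul_nonneg (by positivity) (by linarith only [ht, hs, hs0, mul_nonneg_of_nonpos_of_nonpos (Mathlib.Tactic.Linarith.sub_nonpos_of_le (sq_nonneg s)) (le_of_lt (Mathlib.Tactic.Linarith.sub_neg_of_lt ht)), mul_nonneg_of_nonpos_of_nonpos (Mathlib.Tactic.Linarith.sub_nonpos_of_le (sq_nonneg s)) (Mathlib.Tactic.Linarith.sub_nonpos_of_le hs), mul_nonneg_of_nonpos_of_nonpos (Mathlib.Tactic.Linarith.sub_nonpos_of_le (sq_nonneg ((1 : ℝ) - (5 : ℝ) * s))) (Mathlib.Tactic.Linarith.sub_nonpos_of_le hs0)])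
    linarith only [this]
  have h6 : (1 - t) ^ 2 * ((1 + s - x) ^ 2 + (1 + s + x) ^ 2) ≤
      (1 - 5 * s) ^ 2 * (2 * (1 + 6 * s + s ^ 2)) :=
    mul_le_mul h3 h4 (by positivity) (by positivity)
  rw [div_add_div _ _ (by positivity) (by positivity), div_le_iff₀ (by positivity)]
  linarith only [h2, h5, h6]

lemma area_mob (θ : ℝ) (a : ℂ) (ha : ‖a‖ < 1) :
    volume ((fun z => exp (θ * I) * ((z - a) / (1 - conj a * z))) '' EE) ≤ volume EE := by
  have hne : ∀ z ∈ EE, 1 - conj a * z ≠ 0 := by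
    intro z hz h
    have h1 : ‖conj a * z‖ = 1 := by rw [← sub_eq_zero.1 h]; simp
    rw [norm_mul, Complex.norm_conj] at h1
    have := EE_norm hz
    have := norm_nonneg z
    have := norm_nonneg a
    nlinarith
  have hd : ∀ z ∈ EE, HasFDerivWithinAt (fun z => exp (θ * I) * ((z - a) / (1 - conj a * z)))
      (lin (exp (θ * I) * ((1 - conj a * a) / (1 - conj a * z) ^ 2)) 0) EE z := by
    intro z hz
    have h1 : HasDerivAt (fun z : ℂ => 1 - conj a * z) (-conj a) z := by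
      simpa using ((hasDerivAt_id z).const_mul (conj a)).const_sub 1
    have h2 := (((hasDerivAt_id z).sub_const a).div h1 (hne z hz)).const_mul (exp (θ * I))
    have h3 : HasDerivAt (fun z => exp (θ * I) * ((z - a) / (1 - conj a * z)))
        (exp (θ * I) * ((1 - conj a * a) / (1 - conj a * z) ^ 2)) z := by
      refine HasDerivAt.congr_deriv h2 ?_
      simp only [id]
      congr 2
      ring
    have h4 := hasFDerivAt_lin h3 (hasDerivAt_const z (0 : ℂ))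
    simpa using h4.hasFDerivWithinAt
  refine (addHaar_image_le_lintegral_abs_det_fderiv volume EE_meas hd).trans ?_
  set ψ : ℂ → ENNReal := fun z => ENNReal.ofReal ((1 - ‖a‖ ^ 2) ^ 2 / (normSq (1 - conj a * z)) ^ 2)
    with hψ
  have e1 : ∀ z : ℂ, ENNReal.ofReal
      |(lin (exp (θ * I) * ((1 - conj a * a) / (1 - conj a * z) ^ 2)) 0).det| = ψ z := by
    intro z
    rw [det_lin, hψ]
    simp only
    congr 1
    have : (1 - conj a * a) = ((1 - ‖a‖ ^ 2 : ℝ) : ℂ) := by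
      rw [mul_comm, Complex.mul_conj, Complex.normSq_eq_norm_sq]; push_cast; ring
    rw [norm_zero, norm_mul, Complex.norm_exp_ofReal_mul_I, norm_div, this, Complex.norm_real,
      norm_pow, Complex.normSq_eq_norm_sq, one_mul, div_pow, Real.norm_eq_abs, sq_abs]
    rw [abs_of_nonneg] <;> simp
    positivity
  simp_rw [e1]
  have hψm : Measurable ψ := by
    refine ENNReal.measurable_ofReal.comp (Measurable.div measurable_const ?_)
    exact ((Complex.continuous_normSq.comp (by fun_prop)).pow 2).measurable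
  have e2 : ∫⁻ z in EE, ψ (-z) = ∫⁻ z in EE, ψ z := by
    rw [← lintegral_indicator EE_meas, ← lintegral_indicator EE_meas,
      ← lintegral_neg_eq_self (EE.indicator ψ)]
    congr 1
    funext z
    by_cases hz : z ∈ EE
    · rw [indicator_of_mem hz, indicator_of_mem (EE_neg.2 hz)]
    · rw [indicator_of_notMem hz, indicator_of_notMem (fun h => hz (EE_neg.1 h))]
  have e3 : ∫⁻ z in EE, (ψ z + ψ (-z)) ≤ ∫⁻ _ in EE, 2 := by
    refine setLIntegral_mono' EE_meas fun z hz => ?_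
    rw [hψ]
    simp only
    rw [← ENNReal.ofReal_add (by positivity) (by positivity), ← ENNReal.ofReal_ofNat 2]
    refine ENNReal.ofReal_le_ofReal ?_
    have k1 : normSq (1 - conj a * z) = 1 + normSq (conj a * z) - 2 * (conj a * z).re := by
      rw [Complex.normSq_sub]; simp
    have k2 : normSq (1 - conj a * -z) = 1 + normSq (conj a * z) + 2 * (conj a * z).re := by
      rw [mul_neg, sub_neg_eq_add, Complex.normSq_add]; simp
    rw [k1, k2]
    have hn := norm_nonneg a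
    refine key_ineq _ _ _ (by linarith only [ha, hn, mul_nonneg_of_nonpos_of_nonpos (le_of_lt (Mathlib.Tactic.Linarith.sub_neg_of_lt ha)) (Mathlib.Tactic.Linarith.sub_nonpos_of_le hn)]) (normSq_nonneg _) ?_ ?_
    · rw [Complex.normSq_eq_norm_sq, norm_mul, Complex.norm_conj, mul_pow]
      have := hz.1
      linarith only [this, sq_nonneg ‖a‖, mul_nonneg_of_nonpos_of_nonpos (Mathlib.Tactic.Linarith.sub_nonpos_of_le (sq_nonneg ‖a‖)) (Mathlib.Tactic.Linarith.sub_nonpos_of_le this)]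
    · rw [Complex.normSq_apply]
      linarith only [mul_self_nonneg (conj a * z).im, mul_self_nonneg ((starRingEnd ℂ) a * z).im]
  rw [lintegral_add_left hψm, e2, setLIntegral_const, ← two_mul] at e3
  exact (ENNReal.mul_le_mul_iff_right (by norm_num) (by norm_num)).1 e3

end Pool.Agent.Work.MP_6004b5_an
end
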