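import Pool.Agent.Work.MP_6004b5_an.Area

/-! A convex test set: a thin rectangle centred at the origin. -/

open Complex Metric Set MeasureTheory ComplexConjugate

namespace Pool.Agent.Work.MP_6004b5_an

/-- The rectangle `[-11/25, 11/25] × [-1/20, 1/20]`. -/
def RR : Set ℂ := {z | z.re ∈ Icc (-(11 / 25) : ℝ) (11 / 25) ∧ z.im ∈ Icc (-(1 / 20) : ℝ) (1 / 20)}

lemma RR_sq {z : ℂ} (hz : z ∈ RR) : ‖z‖ ^ 2 ≤ 1 / 5 := by
  obtain ⟨⟨h1, h2⟩, h3, h4⟩ := hz
  rw [Complex.sq_norm, Complex.normSq_apply]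
  nlinarith

lemma RR_norm {z : ℂ} (hz : z ∈ RR) : ‖z‖ ≤ 1 / 2 := by
  have h1 := RR_sq hz
  have h2 := norm_nonneg z
  nlinarith

lemma RR_closed : IsClosed RR :=
  (isClosed_Icc.preimage Complex.continuous_re).inter (isClosed_Icc.preimage Complex.continuous_im)

lemma RR_compact : IsCompact RR :=
  (isCompact_closedBall (0 : ℂ) (1 / 2)).of_isClosed_subset RR_closed
    (fun _ hz => mem_closedBall_zero_iff.2 (RR_norm hz))

lemma RR_convex : Convex ℝ RR :=
  ((convex_Icc _ _).linear_preimage Complex.reLm).inter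
    ((convex_Icc _ _).linear_preimage Complex.imLm)

lemma RR_sub : RR ⊆ ball 0 1 := fun _ hz => mem_ball_zero_iff.2 (by linarith only [RR_norm hz])

lemma RR_meas : MeasurableSet RR := RR_closed.measurableSet

lemma RR_neg {z : ℂ} : -z ∈ RR ↔ z ∈ RR := by
  simp only [RR, mem_ofPred_eq, mem_Icc, Complex.neg_re, Complex.neg_im]
  constructor <;> rintro ⟨⟨h1, h2⟩, h3, h4⟩ <;> refine ⟨⟨?_, ?_⟩, ?_, ?_⟩ <;> linarith

lemma RR_lint {F : ℝ → ENNReal} (hF : Measurable F) :
    ∫⁻ z in RR, F z.re = (∫⁻ x in Icc (-(11 / 25) : ℝ) (11 / 25), F x) * ENNReal.ofReal (1 / 10) := by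
  have h := Complex.volume_preserving_equiv_real_prod.setLIntegral_comp_preimage_emb
    Complex.measurableEquivRealProd.measurableEmbedding (fun p : ℝ × ℝ => F p.1 * 1)
    (Icc (-(11 / 25) : ℝ) (11 / 25) ×ˢ Icc (-(1 / 20) : ℝ) (1 / 20))
  rw [Measure.volume_eq_prod, ← Measure.prod_restrict,
    lintegral_prod_mul (g := fun _ => 1) hF.aemeasurable aemeasurable_const] at h
  simp only [mul_one, lintegral_const, Measure.restrict_apply_univ, Real.volume_Icc, one_mul] at h
  rw [show (1 / 20 : ℝ) - -(1 / 20) = 1 / 10 by norm_num] at h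
  exact h

lemma norm_dgg' {z : ℂ} (hz : ‖z‖ ^ 2 ≤ 1 / 5) :
    ‖(-(99 / 100) * ((10 - z ^ 2) / (10 + z ^ 2) ^ 2) : ℂ)‖ ≤ 106 / 1000 := by
  have h2 : ‖z ^ 2‖ ≤ 1 / 5 := by rw [norm_pow]; exact hz
  have h0 : ‖(10 : ℂ)‖ = 10 := by simp
  have h3 : ‖(10 : ℂ) - z ^ 2‖ ≤ 51 / 5 := by
    have := norm_sub_le (10 : ℂ) (z ^ 2)
    linarith
  have h4 : 49 / 5 ≤ ‖10 + z ^ 2‖ := by
    have h1 : ‖(10 : ℂ)‖ - ‖-(z ^ 2)‖ ≤ ‖10 - -(z ^ 2)‖ := norm_sub_norm_le _ _
    rw [norm_neg, sub_neg_eq_add] at h1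
    linarith
  have h5 : (49 / 5) ^ 2 ≤ ‖10 + z ^ 2‖ ^ 2 := pow_le_pow_left₀ (by norm_num) h4 2
  rw [norm_mul, norm_div, norm_pow, norm_neg]
  have h6 : ‖(99 / 100 : ℂ)‖ = 99 / 100 := by simp
  rw [h6]
  have h7 : ‖(10 : ℂ) - z ^ 2‖ / ‖10 + z ^ 2‖ ^ 2 ≤ (51 / 5) / (49 / 5) ^ 2 :=
    div_le_div₀ (by norm_num) h3 (by norm_num) h5
  norm_num at h7 ⊢
  linarith only [h7]

lemma area_ff' : volume RR < volume (ff '' RR) := by
  have hd : ∀ z ∈ RR, HasFDerivWithinAt ff (lin (99 / 100 + 3 * z ^ 2 / 10)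
      (-(99 / 100) * ((10 - z ^ 2) / (10 + z ^ 2) ^ 2))) RR z := fun z hz =>
    (hasFDerivAt_lin (hasDerivAt_hh z)
      (hasDerivAt_gg (by linarith only [RR_norm hz]))).hasFDerivWithinAt
  rw [← lintegral_abs_det_fderiv_eq_addHaar_image volume RR_meas hd
    (ff_injOn.mono (RR_sub.trans ball_subset_closedBall))]
  have h1 : ∫⁻ z in RR, ENNReal.ofReal (967 / 1000 + 594 / 1000 * z.re ^ 2) ≤
      ∫⁻ z in RR, ENNReal.ofReal |(lin (99 / 100 + 3 * z ^ 2 / 10)
        (-(99 / 100) * ((10 - z ^ 2) / (10 + z ^ 2) ^ 2))).det| := by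
    refine setLIntegral_mono' RR_meas fun z hz => ENNReal.ofReal_le_ofReal ?_
    refine le_trans ?_ (le_abs_self _)
    rw [det_lin]
    have a1 := norm_dhh z
    have a2 := norm_dgg' (RR_sq hz)
    have a3 : (z ^ 2).re = z.re ^ 2 - z.im ^ 2 := by rw [pow_two, Complex.mul_re]; ring
    have a4 := norm_nonneg (-(99 / 100) * ((10 - z ^ 2) / (10 + z ^ 2) ^ 2) : ℂ)
    have a5 : z.im ^ 2 ≤ 1 / 400 := by nlinarith only [hz.2.1, hz.2.2]
    have a6 : 0 ≤ 99 / 100 + 3 * (z ^ 2).re / 10 := by nlinarith only [a3, a5, sq_nonneg z.re]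
    have a7 := pow_le_pow_left₀ a6 a1 2
    have a8 := pow_le_pow_left₀ a4 a2 2
    nlinarith only [a3, a5, a7, a8, sq_nonneg (z ^ 2).re]
  refine lt_of_lt_of_le ?_ h1
  have m1 : Measurable fun x : ℝ => ENNReal.ofReal (967 / 1000 + 594 / 1000 * x ^ 2) := by fun_prop
  have h2 := RR_lint (F := fun _ => 1) measurable_const
  simp only [lintegral_const, Measure.restrict_apply_univ, Real.volume_Icc, one_mul] at h2
  rw [h2, RR_lint m1]
  refine ENNReal.mul_lt_mul_left (by simp) ENNReal.ofReal_ne_top ?_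
  have c1 : Continuous fun x : ℝ => 967 / 1000 + 594 / 1000 * x ^ 2 := by fun_prop
  rw [← ofReal_integral_eq_lintegral_ofReal c1.integrableOn_Icc
    (Filter.Eventually.of_forall fun x => by positivity), integral_Icc_eq_integral_Ioc,
    ← intervalIntegral.integral_of_le (by norm_num)]
  refine (ENNReal.ofReal_lt_ofReal_iff_of_nonneg (by norm_num)).2 ?_
  rw [intervalIntegral.integral_add (by simp) (Continuous.intervalIntegrable (by fun_prop) _ _),
    intervalIntegral.integral_const_mul, integral_pow]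
  norm_num

lemma area_mob' (θ : ℝ) (a : ℂ) (ha : ‖a‖ < 1) :
    volume ((fun z => exp (θ * I) * ((z - a) / (1 - conj a * z))) '' RR) ≤ volume RR := by
  have hne : ∀ z ∈ RR, 1 - conj a * z ≠ 0 := by
    intro z hz h
    have h1 : ‖conj a * z‖ = 1 := by rw [← sub_eq_zero.1 h]; simp
    rw [norm_mul, Complex.norm_conj] at h1
    have := RR_norm hz
    have := norm_nonneg z
    have := norm_nonneg a
    nlinarith
  have hd : ∀ z ∈ RR, HasFDerivWithinAt (fun z => exp (θ * I) * ((z - a) / (1 - conj a * z)))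
      (lin (exp (θ * I) * ((1 - conj a * a) / (1 - conj a * z) ^ 2)) 0) RR z := by
    intro z hz
    have h1 : HasDerivAt (fun z : ℂ => 1 - conj a * z) (-conj a) z := by
      simpa using ((hasDerivAt_id z).const_mul (conj a)).const_sub 1
    have h2 := (((hasDerivAt_id z).sub_const a).div h1 (hne z hz)).const_mul (exp (θ * I))
    have h3 : HasDerivAt (fun z => exp (θ * I) * ((z - a) / (1 - conj a * z)))
        (exp (θ * I) * ((1 - conj a * a) / (1 - conj a * z) ^ 2)) z := by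
      refine HasDerivAt.congr_deriv h2 ?_
      simp only [id]
      congr 2
      ring
    have h4 := hasFDerivAt_lin h3 (hasDerivAt_const z (0 : ℂ))
    simpa using h4.hasFDerivWithinAt
  refine (addHaar_image_le_lintegral_abs_det_fderiv volume RR_meas hd).trans ?_
  set ψ : ℂ → ENNReal := fun z => ENNReal.ofReal ((1 - ‖a‖ ^ 2) ^ 2 / (normSq (1 - conj a * z)) ^ 2)
    with hψ
  have e1 : ∀ z : ℂ, ENNReal.ofReal
      |(lin (exp (θ * I) * ((1 - conj a * a) / (1 - conj a * z) ^ 2)) 0).det| = ψ z := by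
    intro z
    rw [det_lin, hψ]
    simp only
    congr 1
    have : (1 - conj a * a) = ((1 - ‖a‖ ^ 2 : ℝ) : ℂ) := by
      rw [mul_comm, Complex.mul_conj, Complex.normSq_eq_norm_sq]; push_cast; ring
    rw [norm_zero, norm_mul, Complex.norm_exp_ofReal_mul_I, norm_div, this, Complex.norm_real,
      norm_pow, Complex.normSq_eq_norm_sq, one_mul, div_pow, Real.norm_eq_abs, sq_abs]
    rw [abs_of_nonneg] <;> simp
    positivity
  simp_rw [e1]
  have hψm : Measurable ψ := by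
    refine ENNReal.measurable_ofReal.comp (Measurable.div measurable_const ?_)
    exact ((Complex.continuous_normSq.comp (by fun_prop)).pow 2).measurable
  have e2 : ∫⁻ z in RR, ψ (-z) = ∫⁻ z in RR, ψ z := by
    rw [← lintegral_indicator RR_meas, ← lintegral_indicator RR_meas,
      ← lintegral_neg_eq_self (RR.indicator ψ)]
    congr 1
    funext z
    by_cases hz : z ∈ RR
    · rw [indicator_of_mem hz, indicator_of_mem (RR_neg.2 hz)]
    · rw [indicator_of_notMem hz, indicator_of_notMem (fun h => hz (RR_neg.1 h))]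
  have e3 : ∫⁻ z in RR, (ψ z + ψ (-z)) ≤ ∫⁻ _ in RR, 2 := by
    refine setLIntegral_mono' RR_meas fun z hz => ?_
    rw [hψ]
    simp only
    rw [← ENNReal.ofReal_add (by positivity) (by positivity), ← ENNReal.ofReal_ofNat 2]
    refine ENNReal.ofReal_le_ofReal ?_
    have k1 : normSq (1 - conj a * z) = 1 + normSq (conj a * z) - 2 * (conj a * z).re := by
      rw [Complex.normSq_sub]; simp
    have k2 : normSq (1 - conj a * -z) = 1 + normSq (conj a * z) + 2 * (conj a * z).re := by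
      rw [mul_neg, sub_neg_eq_add, Complex.normSq_add]; simp
    rw [k1, k2]
    have hn := norm_nonneg a
    refine key_ineq _ _ _ (by linarith only [ha, hn, mul_nonneg_of_nonpos_of_nonpos (le_of_lt (Mathlib.Tactic.Linarith.sub_neg_of_lt ha)) (Mathlib.Tactic.Linarith.sub_nonpos_of_le hn)]) (normSq_nonneg _) ?_ ?_
    · rw [Complex.normSq_eq_norm_sq, norm_mul, Complex.norm_conj, mul_pow]
      have := RR_sq hz
      linarith only [this, sq_nonneg ‖a‖, mul_nonneg_of_nonpos_of_nonpos (Mathlib.Tactic.Linarith.sub_nonpos_of_le (sq_nonneg ‖a‖)) (Mathlib.Tactic.Linarith.sub_nonpos_of_le this)]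
    · rw [Complex.normSq_apply]
      linarith only [mul_self_nonneg (conj a * z).im, mul_self_nonneg ((starRingEnd ℂ) a * z).im]
  rw [lintegral_add_left hψm, e2, setLIntegral_const, ← two_mul] at e3
  exact (ENNReal.mul_le_mul_iff_right (by norm_num) (by norm_num)).1 e3

end Pool.Agent.Work.MP_6004b5_an
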